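import Mathlib
import Pool.Agent.K6.H87.GN.Glob3

/-!
# Weight-monodromy for the eigenvalues of Frobenius which are algebraic on the strata

Let `K` be a `p`-adic field with residue field with `q` elements, and let `X` be a smooth proper rigid-analytic
space over `K`, and `V = H ^ m (X)`, with a geometric Frobenius lift `Φ` and the logarithm `N` of the monodromy.

We say that an eigenvalue `α` of `Φ` on `V` is algebraic on the strata (`Witness`) if there are

* a finite extension `K'` of `K`, with residue field of degree `k`, and a generically finite map `X' → X` of
  smooth proper rigid-analytic spaces, defined over `K'` (for example the identity), such that `X'` has a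
  strictly semistable formal model with projective special fibre `Y`;
* a smooth projective variety `Z` over the residue field of `K'` (for example a point) and an eigenvalue `β` of
  Frobenius on `H ^ s (Z)`;
* a group `Λ` of eigenvalues with `q ^ k ∈ Λ` and `β α ^ k ∈ Λ`, such that, for the intersections `Y_I` of the
  irreducible components of `Y`, the part of the cohomology of `Y_I × Z` where the eigenvalues of Frobenius are
  in `Λ` is spanned by the classes of algebraic cycles, and such that the Hodge-Riemann relations hold for
  these classes, for the restrictions of one ample class of `Y × Z`.

**Theorem.** The sum of the generalised eigenspaces of `Φ` for the eigenvalues which are algebraic on the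
strata is mw pure of weight `m`: every eigenvalue of `Φ` on the graded piece `gr_a` of its monodromy filtration
is a `q`-Weil number of weight `a + m`.  In particular, if all the eigenvalues of `Φ` on `H ^ m (X)` are
algebraic on the strata, then the weight-monodromy conjecture holds for `H ^ m (X)`.

Examples.

* If the whole cohomology of the strata `Y_I` is spanned by algebraic cycles satisfying the Hodge-Riemann
  relations, then all eigenvalues are algebraic on the strata (`Z` a point, `Λ` the group of all elements), and
  the weight-monodromy conjecture holds for `X`. The Hodge-Riemann relations are known if `dim X ≤ 3`, and for
  strata which lift to characteristic zero with their algebraic classes.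
* `Z` a point, `Λ` the group generated by `q ^ k`: if the strata satisfy the Tate conjecture and the
  Hodge-Riemann relations (`dim X ≤ 3`: the Tate conjecture for divisors is enough), then the weight-monodromy
  conjecture holds for the part of `H ^ m (X)` where the `k`-th powers of the eigenvalues of `Φ` are powers of
  `q ^ k`; there is no condition on the other cohomology classes of the strata.
* `Z` one of the strata, `Λ` the group generated by `q ^ k`: if the Tate conjecture and the Hodge-Riemann
  relations hold for the products of two strata, then the weight-monodromy conjecture holds for `X`.

The space `X` need not be algebraic, and no hard Lefschetz theorem for `X` is available.  The proof: the part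
of the weight spectral sequence of Rapoport and Zink where the eigenvalues are in `Λ` has all the properties
of the weight spectral sequence of a projective semistable scheme, with cohomology of the strata spanned by
algebraic cycles.  On it the Laplace operator of the differential, defined with the positive definite form
given by the Hodge-Riemann relations, commutes with the monodromy operator, and harmonic theory over the
rational numbers shows that the powers of the monodromy operator are bijective on the `E_2` term (the argument
of Guillen, Navarro Aznar and Saito).
-/

set_option autoImplicit false

namespace Pool.Agent.Results.MP_0f76a4_ag.AlgebraicEigenvalues

open Module Pool.Agent.Y143 Pool.Agent.K6.H87.GN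

/-- **The weight-monodromy conjecture for the part of `V = H ^ m (X)` where the eigenvalues of Frobenius are
algebraic on the strata of semistable models.** -/
theorem result {Ω : Type} [Field Ω] [CharZero Ω] {V : Type} [AddCommGroup V] [Module Ω V]
    [FiniteDimensional Ω V] {q : ℕ} (hq : 2 ≤ q) {m : ℤ} {Φ N : Module.End Ω V}
    (h : ∀ v, N (Φ v) = (q : Ω) • Φ (N v)) :
    IsMWPureOn q m Φ N (gs {α | Nonempty (Witness.{0, 0, 0} q m Φ N α)} Φ) :=
  isMWPureOn_witness hq h

end Pool.Agent.Results.MP_0f76a4_ag.AlgebraicEigenvalues
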