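import Mathlib
import Pool.Agent.K6.H87.GN.Pot

/-!
# Weight-monodromy for rigid-analytic varieties with algebraic strata

Let `K` be a `p`-adic field with residue field with `q` elements.  Let `X` be a smooth proper rigid-analytic
space over `K` such that, over a finite extension `K'` of `K` with residue field of degree `k`, there is a
generically finite map `X' → X` (an alteration, for example the identity) with `X'` of dimension `n` having a
strictly semistable formal model with projective special fibre `Y`.  The intersections `Y ^ (a + 1)` of `a + 1`
different components of `Y` are smooth projective varieties of dimension `n - a`.

We assume that the cohomology of the strata `Y ^ (a + 1)` is spanned by the classes of algebraic cycles (so it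
vanishes in odd degrees), and that the Hodge-Riemann relations hold for the algebraic cycles on the strata, for
the restrictions of one ample class of `Y`.  The first condition holds for example if the strata are toric
varieties, flag varieties, iterated blow-ups of such varieties in such varieties (e.g. the varieties which
appear in the uniformization by Drinfeld's upper half spaces), rational surfaces, supersingular K3 surfaces.
The Hodge-Riemann relations for algebraic cycles are known if the dimension is at most three (the Hodge index
theorem), and for varieties with a lift to characteristic zero, with the ample class, for which all algebraic
classes lift.

**Theorem.** Then the weight-monodromy conjecture holds for `X`: for every `m`, the eigenvalues of every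
geometric Frobenius lift on the graded piece `gr_a` of the monodromy filtration of `H ^ m (X)` are `q`-Weil
numbers of weight `a + m`.

The space `X` need not be algebraic: for example the theorem applies to the totally degenerate abeloid
varieties with a tropical polarization.  So no hard Lefschetz theorem for the generic fibre is available.
The proof is the one of Guillen and Navarro Aznar, and of Saito (for semistable degenerations over a disc and
for the weight spectral sequence in the algebraic case; see also Ito's proof for the varieties uniformized by
Drinfeld's upper half spaces), carried out over the rational numbers: the `E_1` term of the weight spectral
sequence of Rapoport and Zink with the monodromy operator and the Lefschetz operator is a representation of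
`sl(2) × sl(2)`, with a form which is positive definite on the classes of algebraic cycles; the Laplace
operator of the differential commutes with the monodromy operator, and harmonic theory over the rational
numbers shows that the powers of the monodromy operator are bijective on the `E_2` term.
-/

set_option autoImplicit false

namespace Pool.Agent.Results.MP_0f76a4_ag.AlgebraicStrata

open Module Pool.Agent.Y143 Pool.Agent.K6.H87.GN

/-- **The weight-monodromy conjecture for smooth proper rigid-analytic spaces which are dominated, after a
finite extension, by a space with a strictly semistable formal model with projective special fibre, the strata
of which have algebraic cohomology satisfying the Hodge-Riemann relations.** -/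
theorem result {Ω : Type} [Field Ω] [CharZero Ω] {Γ : Type} {n q k m : ℕ} (X' : SemistableModel Ω Γ n (q ^ k))
    (A : AlgebraicStrata X'.toSpecialFibre) {V : Type} [AddCommGroup V] [Module Ω V]
    (Φ N : Module.End Ω V) (c : Ω) (i : V →ₗ[Ω] X'.V m) (p : X'.V m →ₗ[Ω] V)
    (h : IsSummand q k Φ N (X'.actV m X'.frob) (X'.N m) c i p) : IsMWPure q m Φ N :=
  isMWPure_summand h (fun h0 => X'.q_ne (by rw [h0, zero_pow h.pos])) (by exact_mod_cast isMWPure A m)

end Pool.Agent.Results.MP_0f76a4_ag.AlgebraicStrata
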